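import Mathlib

/-!
Arithmetic modulo eight for the equation `α ^ q + β ^ q = h ^ q`, `α + β = S`, `α β = m ^ 2`.
-/

set_option autoImplicit false

namespace Pool.Agent.Q252.FS

/-- `E j S Q = (α ^ (2 j + 1) + β ^ (2 j + 1)) / (α + β)` for `α + β = S`, `α β = Q` -/
def E {R : Type*} [CommRing R] : ℕ → R → R → R
  | 0, _, _ => 1
  | 1, S, Q => S ^ 2 - 3 * Q
  | (j + 2), S, Q => (S ^ 2 - 2 * Q) * E (j + 1) S Q - Q ^ 2 * E j S Q

theorem E_zero {R : Type*} [CommRing R] (S Q : R) : E 0 S Q = 1 := by simp [E]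

theorem E_one {R : Type*} [CommRing R] (S Q : R) : E 1 S Q = S ^ 2 - 3 * Q := by simp [E]

theorem E_add_two {R : Type*} [CommRing R] (j : ℕ) (S Q : R) :
    E (j + 2) S Q = (S ^ 2 - 2 * Q) * E (j + 1) S Q - Q ^ 2 * E j S Q := by simp [E]

theorem pow_add_pow {R : Type*} [CommRing R] (a b : R) (j : ℕ) :
    a ^ (2 * j + 1) + b ^ (2 * j + 1) = (a + b) * E j (a + b) (a * b) ∧
    a ^ (2 * (j + 1) + 1) + b ^ (2 * (j + 1) + 1) = (a + b) * E (j + 1) (a + b) (a * b) := by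
  induction j with
  | zero =>
    refine ⟨?_, ?_⟩
    · rw [E_zero]; ring
    · rw [E_one]; ring
  | succ j ih =>
    refine ⟨ih.2, ?_⟩
    rw [E_add_two]
    have e1 : a ^ (2 * (j + 1 + 1) + 1) + b ^ (2 * (j + 1 + 1) + 1) =
        ((a + b) ^ 2 - 2 * (a * b)) * (a ^ (2 * (j + 1) + 1) + b ^ (2 * (j + 1) + 1)) -
          (a * b) ^ 2 * (a ^ (2 * j + 1) + b ^ (2 * j + 1)) := by ring
    rw [e1, ih.1, ih.2]
    ring

theorem E_map {R R' : Type*} [CommRing R] [CommRing R'] (f : R →+* R') (S Q : R) (j : ℕ) :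
    f (E j S Q) = E j (f S) (f Q) ∧ f (E (j + 1) S Q) = E (j + 1) (f S) (f Q) := by
  induction j with
  | zero =>
    refine ⟨?_, ?_⟩
    · rw [E_zero, E_zero, map_one]
    · rw [E_one, E_one, map_sub, map_pow, map_mul, map_ofNat]
  | succ j ih =>
    refine ⟨ih.2, ?_⟩
    rw [E_add_two, E_add_two, map_sub, map_mul, map_mul, map_sub, map_pow, map_pow, map_mul, map_ofNat,
      ih.1, ih.2]

theorem E_hom {R : Type*} [CommRing R] (h S Q : R) (j : ℕ) :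
    E j (h * S) (h ^ 2 * Q) = h ^ (2 * j) * E j S Q ∧
    E (j + 1) (h * S) (h ^ 2 * Q) = h ^ (2 * (j + 1)) * E (j + 1) S Q := by
  induction j with
  | zero =>
    refine ⟨?_, ?_⟩
    · rw [E_zero, E_zero]; ring
    · rw [E_one, E_one]; ring
  | succ j ih =>
    refine ⟨ih.2, ?_⟩
    rw [E_add_two, E_add_two, ih.1, ih.2]
    ring

/-- modulo `S ^ 2` -/
theorem E_mod_sq {R : Type*} [CommRing R] (S Q : R) (j : ℕ) :
    (∃ k : R, E j S Q = (-1) ^ j * (2 * j + 1) * Q ^ j + S ^ 2 * k) ∧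
    (∃ k : R, E (j + 1) S Q = (-1) ^ (j + 1) * (2 * (j + 1) + 1) * Q ^ (j + 1) + S ^ 2 * k) := by
  induction j with
  | zero =>
    refine ⟨⟨0, ?_⟩, ⟨1, ?_⟩⟩
    · rw [E_zero]; simp
    · rw [E_one]; simp; ring
  | succ j ih =>
    obtain ⟨⟨k1, h1⟩, ⟨k2, h2⟩⟩ := ih
    refine ⟨⟨k2, by rw [h2]; push_cast; ring⟩, ?_⟩
    refine ⟨(-1) ^ (j + 1) * (2 * (j + 1) + 1) * Q ^ (j + 1) + (S ^ 2 - 2 * Q) * k2 - Q ^ 2 * k1, ?_⟩
    rw [E_add_two, h1, h2]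
    push_cast
    ring

/-- modulo `S + 2 m`, for `Q = m ^ 2` -/
theorem E_mod_add {R : Type*} [CommRing R] (S m : R) (j : ℕ) :
    (∃ k : R, E j S (m ^ 2) = m ^ (2 * j) + (S + 2 * m) * k) ∧
    (∃ k : R, E (j + 1) S (m ^ 2) = m ^ (2 * (j + 1)) + (S + 2 * m) * k) := by
  induction j with
  | zero =>
    refine ⟨⟨0, ?_⟩, ⟨S - 2 * m, ?_⟩⟩
    · rw [E_zero]; simp
    · rw [E_one]; ring
  | succ j ih =>
    obtain ⟨⟨k1, h1⟩, ⟨k2, h2⟩⟩ := ih
    refine ⟨⟨k2, h2⟩, ?_⟩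
    refine ⟨(S ^ 2 - 2 * m ^ 2) * k2 - m ^ 4 * k1 + (S - 2 * m) * m ^ (2 * (j + 1)), ?_⟩
    rw [E_add_two, h1, h2]
    ring

/-- `m` even, `S` odd or `m` odd, `S` even: the value is odd -/
theorem E_odd {S m : ℤ} (h : S % 2 ≠ m % 2) (j : ℕ) :
    E j S (m ^ 2) % 2 = 1 ∧ E (j + 1) S (m ^ 2) % 2 = 1 := by
  have key : ∀ a b : ZMod 2, a ≠ b → ∀ c d : ZMod 2, c = 1 → d = 1 →
      (a ^ 2 - 3 * b ^ 2 = 1) ∧ ((a ^ 2 - 2 * b ^ 2) * d - (b ^ 2) ^ 2 * c = 1) := by decide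
  have hab : (S : ZMod 2) ≠ (m : ZMod 2) := by
    intro h1
    exact h ((ZMod.intCast_eq_intCast_iff' S m 2).1 h1)
  have hz : ∀ x : ℤ, x % 2 = 1 ↔ (x : ZMod 2) = 1 := by
    intro x
    have h2 := ZMod.intCast_eq_intCast_iff' x 1 2
    rw [Int.cast_one] at h2
    rw [h2]
    rfl
  simp only [hz]
  induction j with
  | zero =>
    refine ⟨?_, ?_⟩
    · rw [E_zero, Int.cast_one]
    · rw [E_one]
      push_cast
      exact (key _ _ hab 1 1 rfl rfl).1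
  | succ j ih =>
    refine ⟨ih.2, ?_⟩
    rw [E_add_two]
    push_cast
    exact (key _ _ hab _ _ ih.1 ih.2).2

theorem sq_odd {x : ℤ} (hx : x % 2 = 1) : x ^ 2 % 8 = 1 := by
  have h : x % 8 = 1 ∨ x % 8 = 3 ∨ x % 8 = 5 ∨ x % 8 = 7 := by omega
  rw [pow_two, Int.mul_emod]
  rcases h with h | h | h | h <;> rw [h] <;> norm_num

theorem zmod8 (x k : ℤ) : x % 8 = k % 8 ↔ (x : ZMod 8) = (k : ZMod 8) :=
  (ZMod.intCast_eq_intCast_iff' x k 8).symm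

theorem sq_odd' {x : ℤ} (hx : x % 2 = 1) : (x : ZMod 8) ^ 2 = 1 := by
  have h := (zmod8 (x ^ 2) 1).1 (by rw [sq_odd hx]; rfl)
  rw [Int.cast_pow, Int.cast_one] at h
  exact h

/-- `m` and `S` odd: the value modulo eight -/
theorem E_mod_eight {S m : ℤ} (hS : S % 2 = 1) (hm : m % 2 = 1) (i : ℕ) :
    ((E (3 * i) S (m ^ 2) : ℤ) : ZMod 8) = 1 ∧ ((E (3 * i + 1) S (m ^ 2) : ℤ) : ZMod 8) = -2 ∧
      ((E (3 * i + 2) S (m ^ 2) : ℤ) : ZMod 8) = 1 := by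
  have hS2 := sq_odd' hS
  have hm2 := sq_odd' hm
  have hrec : ∀ j : ℕ, ((E (j + 2) S (m ^ 2) : ℤ) : ZMod 8) =
      -((E (j + 1) S (m ^ 2) : ℤ) : ZMod 8) - ((E j S (m ^ 2) : ℤ) : ZMod 8) := by
    intro j
    rw [E_add_two]
    push_cast
    rw [hS2, hm2]
    ring
  induction i with
  | zero =>
    have h0 : ((E 0 S (m ^ 2) : ℤ) : ZMod 8) = 1 := by rw [E_zero, Int.cast_one]
    have h1 : ((E 1 S (m ^ 2) : ℤ) : ZMod 8) = -2 := by
      rw [E_one]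
      push_cast
      rw [hS2, hm2]
      decide
    refine ⟨h0, h1, ?_⟩
    have := hrec 0
    rw [h0, h1] at this
    exact this.trans (by decide)
  | succ i ih =>
    obtain ⟨h0, h1, h2⟩ := ih
    have h3 : ((E (3 * (i + 1)) S (m ^ 2) : ℤ) : ZMod 8) = 1 := by
      have := hrec (3 * i + 1)
      rw [h1, h2] at this
      exact this.trans (by decide)
    have h4 : ((E (3 * (i + 1) + 1) S (m ^ 2) : ℤ) : ZMod 8) = -2 := by
      have := hrec (3 * i + 2)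
      rw [h2] at this
      have e : E (3 * i + 2 + 1) S (m ^ 2) = E (3 * (i + 1)) S (m ^ 2) := rfl
      rw [e, h3] at this
      exact this.trans (by decide)
    refine ⟨h3, h4, ?_⟩
    have := hrec (3 * (i + 1))
    rw [h3, h4] at this
    exact this.trans (by decide)

/-- exponents prime to three -/
theorem E_mod_eight_one {S m : ℤ} (hS : S % 2 = 1) (hm : m % 2 = 1) {j : ℕ} (hj : (2 * j + 1) % 3 ≠ 0) :
    E j S (m ^ 2) % 8 = 1 := by
  have h8 : (8 : ℤ) ≠ 0 := by norm_num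
  rw [show (1 : ℤ) = 1 % 8 from rfl, zmod8, Int.cast_one]
  have h := E_mod_eight hS hm (j / 3)
  have h3 : j % 3 = 0 ∨ j % 3 = 2 := by omega
  rcases h3 with h3 | h3
  · have e : j = 3 * (j / 3) := by omega
    rw [e]
    exact h.1
  · have e : j = 3 * (j / 3) + 2 := by omega
    rw [e]
    exact h.2.2

end Pool.Agent.Q252.FS
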