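import Pool.Agent.Q252.FS.A

/-!
The integral form of the equation: conditions on `d` modulo eight.
-/

set_option autoImplicit false

namespace Pool.Agent.Q252.FS

theorem mul_mod8 {a b x y : ℤ} (ha : a % 8 = x) (hb : b % 8 = y) : a * b % 8 = x * y % 8 := by
  rw [Int.mul_emod, ha, hb]

theorem odd_of_mul {a b : ℤ} (h : a * b % 2 = 1) : a % 2 = 1 ∧ b % 2 = 1 := by
  have h1 : a % 2 = 0 ∨ a % 2 = 1 := by omega
  have h2 : b % 2 = 0 ∨ b % 2 = 1 := by omega
  rw [Int.mul_emod] at h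
  rcases h1 with h1 | h1 <;> rcases h2 with h2 | h2 <;> rw [h1, h2] at h <;> norm_num at h
  exact ⟨h1, h2⟩

theorem odd_mul {a b : ℤ} (ha : a % 2 = 1) (hb : b % 2 = 1) : a * b % 2 = 1 := by
  rw [Int.mul_emod, ha, hb]
  norm_num

theorem odd_pow {a : ℤ} (ha : a % 2 = 1) (n : ℕ) : a ^ n % 2 = 1 := by
  induction n with
  | zero => norm_num
  | succ n ih => rw [pow_succ]; exact odd_mul ih ha

/-- `m` even, `S` and `h` odd -/
theorem finish_even {S m h A B d : ℤ} (hS : S % 2 = 1) (hm : m % 2 = 0) (hh : h % 2 = 1)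
    (e1 : (S + 2 * m) * h = A ^ 2) (e2 : (S - 2 * m) * h = d * B ^ 2) : d % 8 = 1 := by
  have hA : A % 2 = 1 := by
    have : A * A % 2 = 1 := by
      rw [← pow_two, ← e1]
      exact odd_mul (by omega) hh
    exact (odd_of_mul this).1
  have hA2 := sq_odd hA
  obtain ⟨k, hk⟩ : ∃ k, m = 2 * k := ⟨m / 2, by omega⟩
  have h3 : d * B ^ 2 = A ^ 2 - 8 * (k * h) := by
    rw [← e2, ← e1, hk]
    ring
  have h4 : d * B ^ 2 % 8 = 1 := by
    rw [h3]
    omega
  have hB : B % 2 = 1 := by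
    have h5 : d * B ^ 2 % 2 = 1 := by omega
    have h6 := (odd_of_mul h5).2
    rw [pow_two] at h6
    exact (odd_of_mul h6).1
  have h7 := mul_mod8 (rfl : d % 8 = d % 8) (sq_odd hB)
  rw [h4] at h7
  omega

/-- the exponent `4` -/
theorem core_four {S m h A B d : ℤ} (hc : IsCoprime S m) (e0 : S ^ 2 - 2 * m ^ 2 = h ^ 2)
    (e1 : (S + 2 * m) * h = A ^ 2) (e2 : (S - 2 * m) * h = d * B ^ 2) : d % 8 = 1 := by
  have h2 : S % 2 = 1 ∨ m % 2 = 1 := by
    by_contra hcon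
    have h3 : (2 : ℤ) ∣ S := by omega
    have h4 : (2 : ℤ) ∣ m := by omega
    have h5 := hc.isUnit_of_dvd' h3 h4
    rw [Int.isUnit_iff] at h5
    omega
  have hm : m % 2 = 0 := by
    by_contra hcon
    have hm1 : m % 2 = 1 := by omega
    have hm2 := sq_odd hm1
    have hS8 : S ^ 2 % 8 = 0 ∨ S ^ 2 % 8 = 1 ∨ S ^ 2 % 8 = 4 := by
      have : S % 8 = 0 ∨ S % 8 = 1 ∨ S % 8 = 2 ∨ S % 8 = 3 ∨ S % 8 = 4 ∨ S % 8 = 5 ∨ S % 8 = 6 ∨
          S % 8 = 7 := by omega
      rw [pow_two]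
      rcases this with h | h | h | h | h | h | h | h <;> rw [mul_mod8 h h] <;> norm_num
    have hh8 : h ^ 2 % 8 = 0 ∨ h ^ 2 % 8 = 1 ∨ h ^ 2 % 8 = 4 := by
      have : h % 8 = 0 ∨ h % 8 = 1 ∨ h % 8 = 2 ∨ h % 8 = 3 ∨ h % 8 = 4 ∨ h % 8 = 5 ∨ h % 8 = 6 ∨
          h % 8 = 7 := by omega
      rw [pow_two]
      rcases this with h | h | h | h | h | h | h | h <;> rw [mul_mod8 h h] <;> norm_num
    omega
  have hS : S % 2 = 1 := by omega
  have hh : h % 2 = 1 := by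
    have h5 := sq_odd hS
    have h6 : h * h % 2 = 1 := by
      rw [← pow_two, ← e0]
      omega
    exact (odd_of_mul h6).1
  exact finish_even hS hm hh e1 e2

/-- squares times powers of two -/
theorem two_pow_sq (a : ℕ) : ∀ w A : ℤ, w % 2 = 1 → 2 ^ a * w = A ^ 2 → ∃ c : ℕ, a = 2 * c ∧ ∃ A' : ℤ, w = A' ^ 2 := by
  induction a using Nat.strong_induction_on with
  | _ a ih =>
    intro w A hw h
    rcases a with _ | _ | a
    · exact ⟨0, rfl, A, by rw [← h]; ring⟩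
    · exfalso
      have h1 : (2 : ℤ) ∣ A := by
        refine Int.prime_two.dvd_of_dvd_pow (n := 2) ?_
        rw [← h]
        exact Dvd.dvd.mul_right (by norm_num) _
      obtain ⟨B, rfl⟩ := h1
      have h2 : w = 2 * B ^ 2 := by
        have : 2 * w = 2 * (2 * B ^ 2) := by
          rw [show (2 : ℤ) * w = 2 ^ (0 + 1) * w by ring, h]
          ring
        exact mul_left_cancel₀ two_ne_zero this
      omega
    · have h1 : (2 : ℤ) ∣ A := by
        refine Int.prime_two.dvd_of_dvd_pow (n := 2) ?_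
        rw [← h]
        exact Dvd.dvd.mul_right (Dvd.intro_left (2 ^ (a + 1)) (by ring)) _
      obtain ⟨B, rfl⟩ := h1
      have h2 : 2 ^ a * w = B ^ 2 := by
        have : 4 * (2 ^ a * w) = 4 * B ^ 2 := by
          rw [show (4 : ℤ) * (2 ^ a * w) = 2 ^ (a + 1 + 1) * w by ring, h]
          ring
        exact mul_left_cancel₀ four_ne_zero this
      obtain ⟨c, hc, A', hA'⟩ := ih a (by omega) w B hw h2
      exact ⟨c + 1, by omega, A', hA'⟩

theorem four_pow_sqf {d : ℤ} (hd : Squarefree d) (c : ℕ) : ∀ w B : ℤ, 4 ^ c * w = d * B ^ 2 →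
    ∃ B' : ℤ, w = d * B' ^ 2 := by
  induction c with
  | zero => intro w B h; exact ⟨B, by rw [← h]; ring⟩
  | succ c ih =>
    intro w B h
    have h1 : (2 : ℤ) ∣ B := by
      have h4 : (4 : ℤ) ∣ d * B ^ 2 := by
        rw [← h, pow_succ]
        exact Dvd.dvd.mul_right (Dvd.intro_left _ rfl) _
      have h2 : ¬ (4 : ℤ) ∣ d := by
        intro h5
        have := hd 2 (by norm_num; exact h5)
        rw [Int.isUnit_iff] at this
        omega
      by_contra hB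
      have hB1 : B % 2 = 1 := by omega
      have hB2 : B ^ 2 % 2 = 1 := odd_pow hB1 2
      have hco : IsCoprime (4 : ℤ) (B ^ 2) := by
        have h6 : IsCoprime (2 : ℤ) (B ^ 2) := ⟨-(B ^ 2 / 2), 1, by omega⟩
        have h7 := h6.pow_left (m := 2)
        norm_num at h7
        exact h7
      exact h2 (hco.dvd_of_dvd_mul_right h4)
    obtain ⟨B', rfl⟩ := h1
    refine ih w B' ?_
    have : 4 * (4 ^ c * w) = 4 * (d * B' ^ 2) := by
      rw [show (4 : ℤ) * (4 ^ c * w) = 4 ^ (c + 1) * w by ring, h]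
      ring
    exact mul_left_cancel₀ four_ne_zero this

/-- `m` odd, `8 ∣ S` -/
theorem finish_odd {S m h A B d : ℤ} (hd : Squarefree d) (hS : (8 : ℤ) ∣ S) (hm : m % 2 = 1) (hh : h ≠ 0)
    (e1 : (S + 2 * m) * h = A ^ 2) (e2 : (S - 2 * m) * h = d * B ^ 2) : d % 8 = 7 := by
  obtain ⟨T, rfl⟩ := hS
  obtain ⟨a, h', hh', rfl⟩ : ∃ (a : ℕ) (h' : ℤ), h' % 2 = 1 ∧ h = 2 ^ a * h' := by
    have hfin : FiniteMultiplicity (2 : ℤ) h := Int.finiteMultiplicity_iff.2 ⟨by norm_num, hh⟩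
    obtain ⟨c, hc, hc2⟩ := hfin.exists_eq_pow_mul_and_not_dvd
    exact ⟨_, c, by omega, hc⟩
  have e1' : 2 ^ (a + 1) * ((4 * T + m) * h') = A ^ 2 := by
    rw [← e1]
    ring
  have hodd : (4 * T + m) * h' % 2 = 1 := odd_mul (by omega) hh'
  obtain ⟨c, hc, A', hA'⟩ := two_pow_sq _ _ _ hodd e1'
  have e2' : 4 ^ c * ((4 * T - m) * h') = d * B ^ 2 := by
    rw [← e2, show (4 : ℤ) ^ c = 2 ^ (a + 1) by rw [hc, pow_mul]; norm_num]
    ring
  obtain ⟨B', hB'⟩ := four_pow_sqf hd c _ _ e2'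
  have hodd' : (4 * T - m) * h' % 2 = 1 := odd_mul (by omega) hh'
  have hA1 : A' % 2 = 1 := by
    rw [hA', pow_two] at hodd
    exact (odd_of_mul hodd).1
  have hB1 : B' % 2 = 1 := by
    rw [hB', pow_two] at hodd'
    exact (odd_of_mul (odd_of_mul hodd').2).1
  have h1 := sq_odd hA1
  have h2 := mul_mod8 (rfl : d % 8 = d % 8) (sq_odd hB1)
  have h3 : d * B' ^ 2 = -A' ^ 2 + 8 * (T * h') := by
    rw [← hB', ← hA']
    ring
  rw [h3] at h2
  omega

end Pool.Agent.Q252.FS
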