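import Pool.Agent.Q252.FS.B

/-!
The case of an odd prime `p = 2 j + 1`.
-/

set_option autoImplicit false

namespace Pool.Agent.Q252.FS

theorem odd_pow_mod8 {h : ℤ} (hh : h % 2 = 1) (j : ℕ) : h ^ (2 * j + 1) % 8 = h % 8 := by
  have h1 : (h ^ 2) ^ j % 8 = 1 := by
    induction j with
    | zero => norm_num
    | succ j ih => rw [pow_succ, mul_mod8 ih (sq_odd hh)]; norm_num
  rw [pow_succ, pow_mul, mul_mod8 h1 rfl]
  omega

/-- one of `S`, `m` is odd, and a prime dividing both is impossible -/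
theorem odd_or_odd {S m : ℤ} (hc : IsCoprime S m) : S % 2 = 1 ∨ m % 2 = 1 := by
  by_contra hcon
  have h3 : (2 : ℤ) ∣ S := by omega
  have h4 : (2 : ℤ) ∣ m := by omega
  have h5 := hc.isUnit_of_dvd' h3 h4
  rw [Int.isUnit_iff] at h5
  omega

theorem eight_dvd {S e h : ℤ} {j : ℕ} (hj : 1 ≤ j) (he : e % 2 = 1) (h2 : (2 : ℤ) ∣ h)
    (e0 : S * e = h ^ (2 * j + 1)) : (8 : ℤ) ∣ S := by
  have h1 : (8 : ℤ) ∣ S * e := by
    rw [e0]
    have h3 : (2 : ℤ) ^ 3 ∣ h ^ 3 := pow_dvd_pow_of_dvd h2 3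
    have h4 : h ^ 3 ∣ h ^ (2 * j + 1) := pow_dvd_pow h (by omega)
    exact (show (8 : ℤ) = 2 ^ 3 by norm_num) ▸ h3.trans h4
  have hco : IsCoprime (8 : ℤ) e := by
    have h6 : IsCoprime (2 : ℤ) e := ⟨-(e / 2), 1, by omega⟩
    have h7 := h6.pow_left (m := 3)
    norm_num at h7
    exact h7
  exact hco.dvd_of_dvd_mul_right h1

/-- first case: `S`, `m` odd is impossible -/
theorem odd_odd {S m h A : ℤ} {j : ℕ} (hp : (2 * j + 1).Prime) (hj : 1 ≤ j) (hS : S % 2 = 1) (hm : m % 2 = 1)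
    (e0 : S * E j S (m ^ 2) = h ^ (2 * j + 1)) (e1 : (S + 2 * m) * h = A ^ 2) : False := by
  by_cases h3 : (2 * j + 1) % 3 = 0
  · have h4 : 3 = 2 * j + 1 := (Nat.prime_dvd_prime_iff_eq Nat.prime_three hp).1 (Nat.dvd_of_mod_eq_zero h3)
    have hj1 : j = 1 := by omega
    subst hj1
    have h5 : E 1 S (m ^ 2) % 8 = 6 := by
      rw [E_one]
      have h6 := sq_odd hS
      have h7 := sq_odd hm
      omega
    have h8 : (2 : ℤ) ∣ h := by
      refine Int.prime_two.dvd_of_dvd_pow (n := 2 * 1 + 1) ?_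
      rw [← e0]
      exact Dvd.dvd.mul_left (by omega) _
    have h9 : (8 : ℤ) ∣ S * E 1 S (m ^ 2) := by
      rw [e0]
      exact (show (8 : ℤ) = 2 ^ (2 * 1 + 1) by norm_num) ▸ pow_dvd_pow_of_dvd h8 _
    have hco : IsCoprime (8 : ℤ) S := by
      have h6 : IsCoprime (2 : ℤ) S := ⟨-(S / 2), 1, by omega⟩
      have h7 := h6.pow_left (m := 3)
      norm_num at h7
      exact h7
    have := hco.dvd_of_dvd_mul_left h9
    omega
  · have h5 : E j S (m ^ 2) % 8 = 1 := E_mod_eight_one hS hm h3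
    have h6 : h % 2 = 1 := by
      by_contra hcon
      have h7 : (2 : ℤ) ∣ h := by omega
      have := eight_dvd hj (by omega) h7 e0
      omega
    have h7 := odd_pow_mod8 h6 j
    rw [← e0, mul_mod8 (rfl : S % 8 = S % 8) h5] at h7
    have h8 : S % 8 = h % 8 := by omega
    have hA : A % 2 = 1 := by
      have : A * A % 2 = 1 := by
        rw [← pow_two, ← e1]
        exact odd_mul (by omega) h6
      exact (odd_of_mul this).1
    have h9 := sq_odd hA
    rw [← e1] at h9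
    obtain ⟨k, hk⟩ : ∃ k, S = h + 8 * k := ⟨(S - h) / 8, by omega⟩
    have h10 : (S + 2 * m) * h = h ^ 2 + 2 * (m * h) + 8 * (k * h) := by
      rw [hk]
      ring
    have h11 := sq_odd h6
    have h12 := odd_mul hm h6
    omega

/-- `p` does not divide `h`: `p` is `1` or `7` modulo `8` -/
theorem first_case {S m h A : ℤ} {j : ℕ} (hp : (2 * j + 1).Prime) (hc : IsCoprime S m) (hS : (8 : ℤ) ∣ S)
    (hm : m % 2 = 1) (hph : ¬ ((2 * j + 1 : ℕ) : ℤ) ∣ h)
    (e0 : S * E j S (m ^ 2) = h ^ (2 * j + 1)) (e1 : (S + 2 * m) * h = A ^ 2) :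
    (2 * j + 1) % 8 = 1 ∨ (2 * j + 1) % 8 = 7 := by
  obtain ⟨k, hk⟩ := (E_mod_sq S (m ^ 2) j).1
  obtain ⟨l, hl⟩ := (E_mod_add S m j).1
  have hpp : Prime ((2 * j + 1 : ℕ) : ℤ) := Nat.prime_iff_prime_int.1 hp
  have hpS : ¬ ((2 * j + 1 : ℕ) : ℤ) ∣ S := by
    intro h1
    refine hph (hpp.dvd_of_dvd_pow (n := 2 * j + 1) ?_)
    rw [← e0]
    exact Dvd.dvd.mul_right h1 _
  have hc1 : IsCoprime S (E j S (m ^ 2)) := by
    rw [hk]
    have h1 : IsCoprime S ((-1) ^ j * (2 * (j : ℤ) + 1) * (m ^ 2) ^ j) := by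
      refine IsCoprime.mul_right (IsCoprime.mul_right ?_ ?_) ((hc.pow_right (n := 2)).pow_right)
      · exact IsCoprime.pow_right (isCoprime_one_right.neg_right)
      · have h2 := (hpp.coprime_iff_not_dvd.2 hpS).symm
        push_cast at h2
        exact h2
    have h3 := h1.add_mul_left_right (S * k)
    rwa [show S * (S * k) = S ^ 2 * k by ring] at h3
  obtain ⟨s, hs⟩ := Int.eq_pow_of_mul_eq_pow_odd_left hc1 (k := 2 * j + 1) ⟨j, rfl⟩ e0
  obtain ⟨e, he⟩ := Int.eq_pow_of_mul_eq_pow_odd_right hc1 (k := 2 * j + 1) ⟨j, rfl⟩ e0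
  have hse : h = s * e := by
    have h1 : h ^ (2 * j + 1) = (s * e) ^ (2 * j + 1) := by
      rw [← e0, mul_pow, ← hs, ← he]
    exact (Odd.strictMono_pow (R := ℤ) (n := 2 * j + 1) ⟨j, rfl⟩).injective h1
  have hc2 : IsCoprime e s := by
    have h1 := hc1
    rw [he, hs] at h1
    exact ((IsCoprime.pow_iff (by omega) (by omega)).1 h1).symm
  have hc3 : IsCoprime e (S + 2 * m) := by
    have h1 : IsCoprime (S + 2 * m) (m ^ (2 * j)) := by
      refine IsCoprime.pow_right ?_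
      have h2 := hc.symm.add_mul_left_right 2
      rw [show S + m * 2 = S + 2 * m by ring] at h2
      exact h2.symm
    have h3 := h1.add_mul_left_right l
    rw [← hl, he] at h3
    exact ((IsCoprime.pow_right_iff (by omega)).1 h3).symm
  have e2 : e * ((S + 2 * m) * s) = A ^ 2 := by
    rw [← e1, hse]
    ring
  obtain ⟨a, ha⟩ := Int.sq_of_isCoprime (hc3.mul_right hc2) e2
  -- `E` modulo eight
  obtain ⟨T, hT⟩ := hS
  have hmj : (m ^ 2) ^ j % 8 = 1 := by
    have h1 := odd_pow_mod8 hm j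
    have h2 : m ^ (2 * j + 1) = (m ^ 2) ^ j * m := by rw [pow_succ, pow_mul]
    induction j with
    | zero => norm_num
    | succ i _ =>
      clear * - hm
      induction i with
      | zero => simpa using sq_odd hm
      | succ i ih => rw [pow_succ, mul_mod8 ih (sq_odd hm)]; norm_num
  have hE : E j S (m ^ 2) % 8 = ((-1) ^ j * (2 * (j : ℤ) + 1)) % 8 := by
    rw [hk, hT]
    have h1 : (-1) ^ j * (2 * (j : ℤ) + 1) * (m ^ 2) ^ j % 8 = ((-1) ^ j * (2 * (j : ℤ) + 1)) % 8 := by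
      rw [mul_mod8 rfl hmj]
      omega
    have h2 : (8 * T) ^ 2 * k = 8 * (8 * T ^ 2 * k) := by ring
    rw [h2]
    omega
  have hEodd : E j S (m ^ 2) % 2 = 1 := (E_odd (by omega) j).1
  have hE1 : E j S (m ^ 2) % 8 = 1 ∨ E j S (m ^ 2) % 8 = 7 := by
    have heo : e % 2 = 1 := by
      have h1 : e ∣ E j S (m ^ 2) := by
        rw [he]
        exact dvd_pow_self e (by omega)
      obtain ⟨w, hw⟩ := h1
      rw [hw] at hEodd
      exact (odd_of_mul hEodd).1
    rw [he, odd_pow_mod8 heo]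
    have hao : a % 2 = 1 := by
      rcases ha with ha | ha
      · rw [ha, pow_two] at heo
        exact (odd_of_mul heo).1
      · have h2 : a * a % 2 = 1 := by
          rw [ha] at heo
          rw [← pow_two]
          omega
        exact (odd_of_mul h2).1
    have ha2 := sq_odd hao
    rcases ha with ha | ha
    · left; rw [ha]; exact ha2
    · right; rw [ha]; omega
  rw [hE] at hE1
  rcases neg_one_pow_eq_or ℤ j with hj | hj
  · rw [hj] at hE1
    omega
  · rw [hj] at hE1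
    omega

/-- **The integral theorem for odd primes.** -/
theorem core_prime {S m h A B d : ℤ} {j : ℕ} (hp : (2 * j + 1).Prime) (hj : 1 ≤ j) (hd : Squarefree d)
    (hc : IsCoprime S m) (hh : h ≠ 0) (e0 : S * E j S (m ^ 2) = h ^ (2 * j + 1))
    (e1 : (S + 2 * m) * h = A ^ 2) (e2 : (S - 2 * m) * h = d * B ^ 2) :
    d % 8 = 1 ∨ (d % 8 = 7 ∧ (¬ ((2 * j + 1 : ℕ) : ℤ) ∣ h → (2 * j + 1) % 8 = 1 ∨ (2 * j + 1) % 8 = 7)) := by
  rcases odd_or_odd hc with hS | hm
  · by_cases hm : m % 2 = 1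
    · exact absurd (odd_odd hp hj hS hm e0 e1) id
    · left
      have h1 := (E_odd (S := S) (m := m) (by omega) j).1
      have hh2 : h % 2 = 1 := by
        by_contra hcon
        have := eight_dvd hj h1 (by omega) e0
        omega
      exact finish_even hS (by omega) hh2 e1 e2
  · by_cases hS : S % 2 = 1
    · exact absurd (odd_odd hp hj hS hm e0 e1) id
    · right
      have h1 := (E_odd (S := S) (m := m) (by omega) j).1
      have hh2 : (2 : ℤ) ∣ h := by
        refine Int.prime_two.dvd_of_dvd_pow (n := 2 * j + 1) ?_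
        rw [← e0]
        exact Dvd.dvd.mul_right (by omega) _
      have h8 := eight_dvd hj h1 hh2 e0
      exact ⟨finish_odd hd h8 hm hh e1 e2, fun hph => first_case hp hc h8 hm hph e0 e1⟩

end Pool.Agent.Q252.FS
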