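import Pool.Agent.Q252.FS.C

/-!
From rational numbers to integers.
-/

set_option autoImplicit false

namespace Pool.Agent.Q252.FS

theorem rat_sq_int {x : ℚ} {k : ℤ} (h : x ^ 2 = k) : ∃ A : ℤ, x = A := by
  have h1 : IsIntegral ℤ (x ^ 2) := by
    rw [h]
    exact isIntegral_algebraMap (R := ℤ) (A := ℚ) (x := k)
  obtain ⟨A, hA⟩ := IsIntegrallyClosed.exists_algebraMap_eq_of_isIntegral_pow (R := ℤ) (K := ℚ) (n := 2)
    (by norm_num) h1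
  exact ⟨A, by rw [← hA]; rfl⟩

theorem rat_sqf_int {x : ℚ} {d k : ℤ} (hd : Squarefree d) (h : d * x ^ 2 = k) : ∃ B : ℤ, x = B := by
  have hd0 : (d : ℚ) ≠ 0 := Int.cast_ne_zero.2 hd.ne_zero
  obtain ⟨c, hc⟩ := rat_sq_int (x := d * x) (k := d * k) (by push_cast; rw [← h]; ring)
  have h1 : c ^ 2 = d * k := by
    have : (c : ℚ) ^ 2 = d * k := by rw [← hc, ← h]; ring
    exact_mod_cast this
  have h2 : d ∣ c := (hd.dvd_pow_iff_dvd (n := 2) (by norm_num)).1 ⟨k, h1⟩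
  obtain ⟨B, rfl⟩ := h2
  refine ⟨B, ?_⟩
  push_cast at hc
  exact mul_left_cancel₀ hd0 hc

/-- the common denominators of two rational numbers -/
def denIdeal (T M : ℚ) : Ideal ℤ where
  carrier := {c | (∃ a : ℤ, T * c = a) ∧ ∃ b : ℤ, M * c = b}
  add_mem' := by
    rintro x y ⟨⟨a, ha⟩, b, hb⟩ ⟨⟨a', ha'⟩, b', hb'⟩
    exact ⟨⟨a + a', by push_cast; rw [mul_add, ha, ha']⟩, b + b', by push_cast; rw [mul_add, hb, hb']⟩
  zero_mem' := ⟨⟨0, by simp⟩, 0, by simp⟩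
  smul_mem' := by
    rintro c x ⟨⟨a, ha⟩, b, hb⟩
    refine ⟨⟨c * a, ?_⟩, c * b, ?_⟩
    · rw [smul_eq_mul]; push_cast; rw [← ha]; ring
    · rw [smul_eq_mul]; push_cast; rw [← hb]; ring

theorem clear_den (T M : ℚ) : ∃ S m h : ℤ, h ≠ 0 ∧ T * h = S ∧ M * h = m ∧
    (∀ l : ℤ, Prime l → l ∣ S → l ∣ m → l ∣ h → False) ∧
    ∀ c : ℤ, (∃ a : ℤ, T * c = a) → (∃ b : ℤ, M * c = b) → h ∣ c := by
  obtain ⟨h, hh⟩ : ∃ h, denIdeal T M = Ideal.span {h} :=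
    (IsPrincipalIdealRing.principal (denIdeal T M)).principal
  have hmem : ∀ c : ℤ, (∃ a : ℤ, T * c = a) → (∃ b : ℤ, M * c = b) → h ∣ c := by
    intro c h1 h2
    rw [← Ideal.mem_span_singleton, ← hh]
    exact ⟨h1, h2⟩
  obtain ⟨⟨S, hS⟩, m, hm⟩ : (∃ a : ℤ, T * h = a) ∧ ∃ b : ℤ, M * h = b := by
    have : h ∈ denIdeal T M := by
      rw [hh]
      exact Ideal.mem_span_singleton_self h
    exact this
  have h0 : h ≠ 0 := by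
    rintro rfl
    have h1 := hmem (T.den * M.den) ⟨T.num * M.den, by
      push_cast
      rw [← mul_assoc, Rat.mul_den_eq_num]⟩ ⟨T.den * M.num, by
      push_cast
      rw [mul_left_comm, Rat.mul_den_eq_num]⟩
    rw [zero_dvd_iff] at h1
    have h2 : (T.den : ℤ) ≠ 0 := Int.natCast_ne_zero.2 T.den_ne_zero
    have h3 : (M.den : ℤ) ≠ 0 := Int.natCast_ne_zero.2 M.den_ne_zero
    exact mul_ne_zero h2 h3 h1
  refine ⟨S, m, h, h0, hS, hm, ?_, hmem⟩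
  rintro l hl ⟨a, rfl⟩ ⟨b, rfl⟩ ⟨c, rfl⟩
  have hl0 : (l : ℚ) ≠ 0 := Int.cast_ne_zero.2 hl.ne_zero
  have hc0 : c ≠ 0 := right_ne_zero_of_mul h0
  have h1 := hmem c ⟨a, by
    push_cast at hS
    exact mul_left_cancel₀ hl0 (by rw [← hS]; ring)⟩ ⟨b, by
    push_cast at hm
    exact mul_left_cancel₀ hl0 (by rw [← hm]; ring)⟩
  have h2 : l ∣ 1 := by
    have h3 : l * c ∣ 1 * c := by rwa [one_mul]
    exact (mul_dvd_mul_iff_right hc0).1 h3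
  exact hl.not_unit (isUnit_of_dvd_one h2)

/-- integral data -/
theorem integral_data {t s M T : ℚ} {d : ℤ} (hd : Squarefree d) (hT : T = t ^ 2 - 2 * M)
    (hs : t ^ 2 - 4 * M = d * s ^ 2) : ∃ S m h A B : ℤ, h ≠ 0 ∧ T * h = S ∧ M * h = m ∧
    (S + 2 * m) * h = A ^ 2 ∧ (S - 2 * m) * h = d * B ^ 2 ∧
    (∀ l : ℤ, Prime l → l ∣ S → l ∣ m → l ∣ h → False) ∧
    ∀ c : ℤ, (∃ a : ℤ, T * c = a) → (∃ b : ℤ, M * c = b) → h ∣ c := by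
  obtain ⟨S, m, h, h0, hS, hm, hpr, hden⟩ := clear_den T M
  have e1 : (h * t : ℚ) ^ 2 = (((S + 2 * m) * h : ℤ) : ℚ) := by
    push_cast
    rw [← hS, ← hm, hT]
    ring
  obtain ⟨A, hA⟩ := rat_sq_int e1
  have e2 : (d : ℚ) * (h * s) ^ 2 = (((S - 2 * m) * h : ℤ) : ℚ) := by
    push_cast
    rw [← hS, ← hm, hT, mul_pow, mul_left_comm, ← hs]
    ring
  obtain ⟨B, hB⟩ := rat_sqf_int hd e2
  refine ⟨S, m, h, A, B, h0, hS, hm, ?_, ?_, hpr, hden⟩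
  · rw [hA] at e1
    exact_mod_cast e1.symm
  · rw [hB] at e2
    exact_mod_cast e2.symm

theorem coprime_of {S m h : ℤ} {n : ℕ} (hn : n ≠ 0) (h0 : h ≠ 0)
    (hpr : ∀ l : ℤ, Prime l → l ∣ S → l ∣ m → l ∣ h → False)
    (H : ∀ l : ℤ, l ∣ S → l ∣ m → l ∣ h ^ n) : IsCoprime S m := by
  refine isCoprime_of_prime_dvd ?_ fun l hl h1 h2 => hpr l hl h1 h2 (hl.dvd_of_dvd_pow (H l h1 h2))
  rintro ⟨rfl, rfl⟩
  have := H 0 (dvd_refl 0) (dvd_refl 0)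
  rw [zero_dvd_iff] at this
  exact h0 (pow_eq_zero_iff hn |>.1 this)

/-- exponent four -/
theorem rat_four {t s M : ℚ} {d : ℤ} (hd : Squarefree d) (hs : t ^ 2 - 4 * M = d * s ^ 2)
    (he : (t ^ 2 - 2 * M) ^ 2 - 2 * M ^ 2 = 1) : d % 8 = 1 := by
  obtain ⟨S, m, h, A, B, h0, hS, hm, e1, e2, hpr, -⟩ := integral_data hd rfl hs
  have e0 : S ^ 2 - 2 * m ^ 2 = h ^ 2 := by
    have : (S : ℚ) ^ 2 - 2 * (m : ℚ) ^ 2 = (h : ℚ) ^ 2 := by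
      rw [← hS, ← hm, mul_pow, mul_pow, ← mul_assoc, ← sub_mul, he, one_mul]
    exact_mod_cast this
  refine core_four (coprime_of two_ne_zero h0 hpr fun l h1 h2 => ?_) e0 e1 e2
  rw [← e0]
  exact dvd_sub (dvd_pow h1 two_ne_zero) (Dvd.dvd.mul_left (dvd_pow h2 two_ne_zero) _)

/-- odd primes -/
theorem rat_prime {t s M : ℚ} {d : ℤ} {j : ℕ} (hp : (2 * j + 1).Prime) (hj : 1 ≤ j) (hd : Squarefree d)
    (hs : t ^ 2 - 4 * M = d * s ^ 2)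
    (he : (t ^ 2 - 2 * M) * E j (t ^ 2 - 2 * M) (M ^ 2) = 1) :
    d % 8 = 1 ∨ (d % 8 = 7 ∧ ∀ c : ℤ, ¬ ((2 * j + 1 : ℕ) : ℤ) ∣ c → (∃ a : ℤ, (t ^ 2 - 2 * M) * c = a) →
      (∃ b : ℤ, M * c = b) → (2 * j + 1) % 8 = 1 ∨ (2 * j + 1) % 8 = 7) := by
  obtain ⟨S, m, h, A, B, h0, hS, hm, e1, e2, hpr, hden⟩ := integral_data hd rfl hs
  have e0 : S * E j S (m ^ 2) = h ^ (2 * j + 1) := by
    have h1 : ((E j S (m ^ 2) : ℤ) : ℚ) = E j (S : ℚ) ((m : ℚ) ^ 2) := by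
      have := (E_map (Int.castRingHom ℚ) S (m ^ 2) j).1
      simpa using this
    have h2 : (S : ℚ) * ((E j S (m ^ 2) : ℤ) : ℚ) = (h : ℚ) ^ (2 * j + 1) := by
      rw [h1, ← hS, ← hm]
      have h3 := (E_hom (h : ℚ) (t ^ 2 - 2 * M) (M ^ 2) j).1
      rw [show (t ^ 2 - 2 * M) * (h : ℚ) = h * (t ^ 2 - 2 * M) by ring,
        show (M * (h : ℚ)) ^ 2 = h ^ 2 * M ^ 2 by ring, h3]
      calc (h : ℚ) * (t ^ 2 - 2 * M) * (h ^ (2 * j) * E j (t ^ 2 - 2 * M) (M ^ 2))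
          = h ^ (2 * j + 1) * ((t ^ 2 - 2 * M) * E j (t ^ 2 - 2 * M) (M ^ 2)) := by ring
        _ = _ := by rw [he, mul_one]
    exact_mod_cast h2
  have hc : IsCoprime S m := coprime_of (n := 2 * j + 1) (by omega) h0 hpr fun l h1 h2 => by
    rw [← e0]
    exact Dvd.dvd.mul_right h1 _
  rcases core_prime hp hj hd hc h0 e0 e1 e2 with h1 | ⟨h1, h2⟩
  · exact Or.inl h1
  · refine Or.inr ⟨h1, fun c hpc ha hb => h2 fun h3 => hpc (h3.trans (hden c ha hb))⟩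

end Pool.Agent.Q252.FS
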