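import Pool.Agent.Q252.FS.D

/-!
Conjugation in a quadratic field and the symmetric solutions.
-/

set_option autoImplicit false

namespace Pool.Agent.Q252.FS

variable {K : Type} [Field K] [NumberField K]

/-- the conjugation of a quadratic field -/
structure Conj (σ : K ≃ₐ[ℚ] K) : Prop where
  tr : ∀ x : K, algebraMap ℚ K (Algebra.trace ℚ K x) = x + σ x
  nm : ∀ x : K, algebraMap ℚ K (Algebra.norm ℚ x) = x * σ x

theorem exists_conj (hK : Module.finrank ℚ K = 2) : ∃ σ : K ≃ₐ[ℚ] K, Conj σ := by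
  have : Algebra.IsQuadraticExtension ℚ K := ⟨hK⟩
  have hcard : Nat.card (K ≃ₐ[ℚ] K) = 2 := by
    rw [IsGalois.card_aut_eq_finrank, hK]
  obtain ⟨σ, hσ, huniq⟩ := (Nat.card_eq_two_iff' (1 : K ≃ₐ[ℚ] K)).1 hcard
  classical
  have huniv : (Finset.univ : Finset (K ≃ₐ[ℚ] K)) = {1, σ} := by
    ext τ
    simp only [Finset.mem_univ, Finset.mem_insert, Finset.mem_singleton, true_iff]
    by_cases h : τ = 1
    · exact Or.inl h
    · exact Or.inr (huniq τ h)
  refine ⟨σ, fun x => ?_, fun x => ?_⟩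
  · rw [trace_eq_sum_automorphisms, huniv, Finset.sum_pair hσ.symm]
    rfl
  · rw [Algebra.norm_eq_prod_automorphisms, huniv, Finset.prod_pair hσ.symm]
    rfl

theorem Conj.conj_root {σ : K ≃ₐ[ℚ] K} (hσ : Conj σ) {d : ℤ} (hd : Squarefree d) (hd1 : d ≠ 1) {r : K}
    (hr : r ^ 2 = (d : K)) : σ r = -r := by
  have h1 : (σ r) ^ 2 = r ^ 2 := by
    rw [← map_pow, hr, map_intCast]
  rcases sq_eq_sq_iff_eq_or_eq_neg.1 h1 with h2 | h2
  · exfalso
    have h3 := hσ.tr r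
    rw [h2, ← two_mul] at h3
    set q : ℚ := Algebra.trace ℚ K r with hq
    have h4 : algebraMap ℚ K (q ^ 2) = algebraMap ℚ K (4 * d) := by
      rw [map_pow, h3, mul_pow, hr, map_mul, map_ofNat, map_intCast]
      norm_num
    have h5 : q ^ 2 = 4 * d := (algebraMap ℚ K).injective h4
    have h6 : (q / 2) ^ 2 = d := by rw [div_pow, h5]; ring
    obtain ⟨A, hA⟩ := rat_sq_int h6
    have h7 : d = A ^ 2 := by
      rw [hA] at h6
      exact_mod_cast h6.symm
    have h8 : IsUnit A := hd A ⟨1, by rw [h7]; ring⟩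
    rcases Int.isUnit_iff.1 h8 with h9 | h9 <;> rw [h9] at h7 <;> norm_num at h7 <;> exact hd1 h7
  · exact h2

/-- rational data of an element of a quadratic field -/
theorem Conj.data {σ : K ≃ₐ[ℚ] K} (hσ : Conj σ) {d : ℤ} (hd : Squarefree d) (hd1 : d ≠ 1) {r : K}
    (hr : r ^ 2 = (d : K)) (U : K) : ∃ s : ℚ,
      (Algebra.trace ℚ K U) ^ 2 - 4 * Algebra.norm ℚ U = d * s ^ 2 := by
  have hr' := hσ.conj_root hd hd1 hr
  have hr0 : r ≠ 0 := by
    rintro rfl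
    rw [zero_pow two_ne_zero] at hr
    exact hd.ne_zero (Int.cast_eq_zero.1 hr.symm)
  -- `σ (σ U) = U`
  have hσσ : σ (σ U) = U := by
    have h1 := congrArg σ (hσ.tr U)
    rw [AlgEquiv.commutes, map_add, hσ.tr U] at h1
    linear_combination -h1
  set V : K := (U - σ U) / r with hV
  have h2 : σ V = V := by
    rw [hV, map_div₀, map_sub, hσσ, hr']
    field_simp
    ring
  have h3 : algebraMap ℚ K (Algebra.trace ℚ K V / 2) = V := by
    rw [map_div₀, hσ.tr V, h2, map_ofNat]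
    ring
  refine ⟨Algebra.trace ℚ K V / 2, ?_⟩
  apply (algebraMap ℚ K).injective
  rw [map_sub, map_pow, map_mul, map_mul, map_pow, hσ.tr U, hσ.nm U, h3, map_ofNat, map_intCast, ← hr, hV]
  field_simp
  ring

theorem Conj.tr_sq {σ : K ≃ₐ[ℚ] K} (hσ : Conj σ) (U : K) :
    Algebra.trace ℚ K (U ^ 2) = (Algebra.trace ℚ K U) ^ 2 - 2 * Algebra.norm ℚ U := by
  apply (algebraMap ℚ K).injective
  have h1 := hσ.tr U
  have h2 := hσ.nm U
  rw [hσ.tr (U ^ 2)]
  generalize Algebra.trace ℚ K U = a at *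
  generalize Algebra.norm ℚ U = b at *
  rw [map_sub, map_pow (algebraMap ℚ K), map_mul, h1, h2, map_ofNat, map_pow]
  ring

/-- rational integers -/
theorem int_of_isIntegral {q : ℚ} (h : IsIntegral ℤ q) : ∃ a : ℤ, q = a := by
  obtain ⟨a, ha⟩ := IsIntegrallyClosed.isIntegral_iff.1 h
  exact ⟨a, ha.symm⟩

/-- the exponent four -/
theorem sym_four {σ : K ≃ₐ[ℚ] K} (hσ : Conj σ) {d : ℤ} (hd : Squarefree d) (hd1 : d ≠ 1) {r : K}
    (hr : r ^ 2 = (d : K)) {U : K} (h : U ^ 4 + σ U ^ 4 = 1) : d % 8 = 1 := by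
  obtain ⟨s, hs⟩ := hσ.data hd hd1 hr U
  refine rat_four hd hs ?_
  apply (algebraMap ℚ K).injective
  rw [map_sub, map_pow, map_sub, map_pow, map_mul, map_mul, map_pow, hσ.tr U, hσ.nm U, map_ofNat, map_one,
    ← h]
  ring

/-- odd primes -/
theorem sym_prime {σ : K ≃ₐ[ℚ] K} (hσ : Conj σ) {d : ℤ} (hd : Squarefree d) (hd1 : d ≠ 1) {r : K}
    (hr : r ^ 2 = (d : K)) {p : ℕ} (hp : p.Prime) (hp2 : p ≠ 2) {k : ℕ} {u : K}
    (h : u ^ (2 * p * k) + σ u ^ (2 * p * k) = 1) :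
    d % 8 = 1 ∨ (d % 8 = 7 ∧ ∀ c : ℤ, ¬ (p : ℤ) ∣ c → IsIntegral ℤ ((c : K) * u) →
      p % 8 = 1 ∨ p % 8 = 7) := by
  obtain ⟨j, rfl⟩ : ∃ j, p = 2 * j + 1 := by
    have := hp.odd_of_ne_two hp2
    obtain ⟨j, hj⟩ := this
    exact ⟨j, hj⟩
  have hj : 1 ≤ j := by
    have := hp.two_le
    omega
  set U : K := u ^ k with hU
  obtain ⟨s, hs⟩ := hσ.data hd hd1 hr U
  have h1 : (U ^ 2) ^ (2 * j + 1) + (σ U ^ 2) ^ (2 * j + 1) = 1 := by
    rw [hU, map_pow, ← h]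
    congr 1
    · rw [← pow_mul, ← pow_mul]
      congr 1
      ring
    · rw [← pow_mul, ← pow_mul]
      congr 1
      ring
  have he : ((Algebra.trace ℚ K U) ^ 2 - 2 * Algebra.norm ℚ U) *
      E j ((Algebra.trace ℚ K U) ^ 2 - 2 * Algebra.norm ℚ U) ((Algebra.norm ℚ U) ^ 2) = 1 := by
    apply (algebraMap ℚ K).injective
    have h7 := hσ.tr U
    have h8 := hσ.nm U
    have h2 := (pow_add_pow (U ^ 2) (σ U ^ 2) j).1
    rw [h1] at h2
    clear hs
    generalize Algebra.trace ℚ K U = a at *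
    generalize Algebra.norm ℚ U = b at *
    rw [map_mul, (E_map (algebraMap ℚ K) _ _ j).1, map_sub, map_pow (algebraMap ℚ K) a,
      map_pow (algebraMap ℚ K) b, map_mul (algebraMap ℚ K), h7, h8, map_ofNat, map_one]
    rw [show (U + σ U) ^ 2 - 2 * (U * σ U) = U ^ 2 + σ U ^ 2 by ring,
      show (U * σ U) ^ 2 = U ^ 2 * σ U ^ 2 by ring]
    exact h2.symm
  rcases rat_prime hp hj hd hs he with h3 | ⟨h3, h4⟩
  · exact Or.inl h3
  · refine Or.inr ⟨h3, fun c hc hint => ?_⟩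
    have hU2 : IsIntegral ℤ ((c : K) ^ (2 * k) * U ^ 2) := by
      have h5 : ((c : K) * u) ^ (2 * k) = (c : K) ^ (2 * k) * U ^ 2 := by
        rw [mul_pow, hU, ← pow_mul, mul_comm k 2]
      rw [← h5]
      exact hint.pow _
    have hU1 : IsIntegral ℤ ((c : K) ^ k * U) := by
      rw [hU, ← mul_pow]
      exact hint.pow _
    refine h4 (c ^ (2 * k)) (fun h5 => hc ((Nat.prime_iff_prime_int.1 hp).dvd_of_dvd_pow h5)) ?_ ?_
    · obtain ⟨a, ha⟩ := int_of_isIntegral (Algebra.isIntegral_trace (L := ℚ) hU2)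
      refine ⟨a, ?_⟩
      rw [← ha, ← hσ.tr_sq U]
      have h6 : (c : K) ^ (2 * k) * U ^ 2 = ((c : ℚ) ^ (2 * k)) • (U ^ 2) := by
        rw [Algebra.smul_def, map_pow, map_intCast]
      rw [h6, map_smul, smul_eq_mul]
      push_cast
      ring
    · obtain ⟨b, hb⟩ := int_of_isIntegral (Algebra.isIntegral_norm ℚ hU1)
      refine ⟨b, ?_⟩
      rw [← hb, map_mul]
      apply (algebraMap ℚ K).injective
      have h9 : algebraMap ℚ K (Algebra.norm ℚ ((c : K) ^ k)) = (c : K) ^ (2 * k) := by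
        rw [hσ.nm, map_pow, map_intCast]
        ring
      rw [map_mul, map_mul, h9, map_intCast]
      push_cast
      ring

end Pool.Agent.Q252.FS
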