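import Pool.Agent.Q252.FS.F

/-!
Solutions of Fermat's equation over a quadratic field two of whose members have norms of the same absolute value.
-/

set_option autoImplicit false

namespace Pool.Agent.Q252.FS

variable {K : Type} [Field K] [NumberField K]

theorem pow_eq_of_abs {σ : K ≃ₐ[ℚ] K} (hσ : Conj σ) {n : ℕ} (he : Even n) {x y : K}
    (h : |Algebra.norm ℚ x| = |Algebra.norm ℚ y|) : (x * σ x) ^ n = (y * σ y) ^ n := by
  rw [← hσ.nm, ← hσ.nm]
  generalize Algebra.norm ℚ x = a at *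
  generalize Algebra.norm ℚ y = b at *
  rw [← map_pow, ← map_pow, ← he.pow_abs a, h, he.pow_abs]

theorem sym_of {σ : K ≃ₐ[ℚ] K} (hσ : Conj σ) {n : ℕ} (he : Even n) {x y z : K} (hz : z ≠ 0)
    (h : x ^ n + y ^ n = z ^ n) (hN : |Algebra.norm ℚ x| = |Algebra.norm ℚ y|) :
    (x / z) ^ n + σ (x / z) ^ n = 1 := by
  have h1 := pow_eq_of_abs hσ he hN
  have h2 : σ x ^ n + σ y ^ n = σ z ^ n := by
    rw [← map_pow, ← map_pow, ← map_add, h, map_pow]
  have hz' : σ z ≠ 0 := by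
    rw [Ne, map_eq_zero]
    exact hz
  rw [map_div₀, div_pow, div_pow, div_add_div _ _ (pow_ne_zero n hz) (pow_ne_zero n hz'),
    div_eq_one_iff_eq (mul_ne_zero (pow_ne_zero n hz) (pow_ne_zero n hz'))]
  rw [mul_pow, mul_pow] at h1
  rw [← h2, ← h]
  linear_combination h1

theorem anti_of {σ : K ≃ₐ[ℚ] K} (hσ : Conj σ) {n : ℕ} (he : Even n) {x y z : K} (hx : x ≠ 0) (hy : y ≠ 0)
    (h : x ^ n + y ^ n = z ^ n) (hN : |Algebra.norm ℚ x| = |Algebra.norm ℚ z|) :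
    ∃ η : K, η ^ n = -1 := by
  have h1 := pow_eq_of_abs hσ he hN
  have h2 : σ x ^ n + σ y ^ n = σ z ^ n := by
    rw [← map_pow, ← map_pow, ← map_add, h, map_pow]
  have hx' : σ x ≠ 0 := by
    rw [Ne, map_eq_zero]
    exact hx
  refine ⟨z * σ y / (y * σ x), ?_⟩
  rw [div_pow, div_eq_iff (pow_ne_zero n (mul_ne_zero hy hx')), mul_pow, mul_pow]
  rw [mul_pow, mul_pow] at h1
  linear_combination (z ^ n) * h2 + (σ x ^ n) * h - h1

theorem rat_of_fixed {σ : K ≃ₐ[ℚ] K} (hσ : Conj σ) {x : K} (h : σ x = x) : ∃ q : ℚ, algebraMap ℚ K q = x := by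
  refine ⟨Algebra.trace ℚ K x / 2, ?_⟩
  rw [map_div₀, hσ.tr x, h, map_ofNat]
  ring

/-- a square root of `-1` -/
theorem conj_i {σ : K ≃ₐ[ℚ] K} (hσ : Conj σ) {i : K} (hi : i ^ 2 = -1) : σ i = -i := by
  have h1 : (σ i) ^ 2 = i ^ 2 := by
    rw [← map_pow, hi, map_neg, map_one]
  rcases sq_eq_sq_iff_eq_or_eq_neg.1 h1 with h2 | h2
  · exfalso
    obtain ⟨q, hq⟩ := rat_of_fixed hσ h2
    have h3 : algebraMap ℚ K (q ^ 2) = algebraMap ℚ K (-1) := by
      rw [map_pow, hq, hi, map_neg, map_one]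
    have h4 := (algebraMap ℚ K).injective h3
    nlinarith [sq_nonneg q]
  · exact h2

theorem eq_neg_one {σ : K ≃ₐ[ℚ] K} (hσ : Conj σ) {d : ℤ} (hd : Squarefree d) (hd1 : d ≠ 1) {r : K}
    (hr : r ^ 2 = (d : K)) {i : K} (hi : i ^ 2 = -1) : d = -1 := by
  have h1 := conj_i hσ hi
  have h2 := hσ.conj_root hd hd1 hr
  obtain ⟨q, hq⟩ := rat_of_fixed hσ (x := i * r) (by rw [map_mul, h1, h2]; ring)
  have h3 : algebraMap ℚ K (q ^ 2) = algebraMap ℚ K ((-d : ℤ) : ℚ) := by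
    rw [map_pow, hq, mul_pow, hi, hr, map_intCast]
    push_cast
    ring
  have h4 := (algebraMap ℚ K).injective h3
  obtain ⟨A, hA⟩ := rat_sq_int h4
  have h5 : -d = A ^ 2 := by
    rw [hA] at h4
    exact_mod_cast h4.symm
  have h6 : IsUnit A := hd A ⟨-1, by linear_combination -h5⟩
  rcases Int.isUnit_iff.1 h6 with h7 | h7 <;> rw [h7] at h5 <;> norm_num at h5 <;> omega

theorem no_eighth {σ : K ≃ₐ[ℚ] K} (hσ : Conj σ) {θ : K} (h : θ ^ 4 = -1) : False := by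
  have h1 : (θ ^ 2) ^ 2 = -1 := by rw [← h]; ring
  have h2 := conj_i hσ h1
  rw [map_pow] at h2
  have ht := hσ.tr θ
  have hn := hσ.nm θ
  generalize Algebra.trace ℚ K θ = t at *
  generalize Algebra.norm ℚ θ = q at *
  have h3 : algebraMap ℚ K (t ^ 2) = algebraMap ℚ K (2 * q) := by
    rw [map_pow (algebraMap ℚ K), map_mul, ht, hn, map_ofNat]
    linear_combination h2
  have h4 : algebraMap ℚ K (q ^ 2) = algebraMap ℚ K 1 := by
    rw [map_pow (algebraMap ℚ K), hn, map_one, mul_pow, h2]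
    linear_combination -h
  have h5 := (algebraMap ℚ K).injective h3
  have h6 := (algebraMap ℚ K).injective h4
  have h7 : q = 1 := by
    rcases mul_self_eq_one_iff.1 ((pow_two q).symm.trans h6) with h8 | h8
    · exact h8
    · exfalso
      rw [h8] at h5
      nlinarith [sq_nonneg t]
  rw [h7] at h5
  obtain ⟨A, hA⟩ := rat_sq_int (x := t) (k := 2) (by rw [h5]; norm_num)
  rw [hA] at h5
  have h8 : A ^ 2 = 2 := by
    have : ((A ^ 2 : ℤ) : ℚ) = ((2 : ℤ) : ℚ) := by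
      push_cast
      rw [h5]
      norm_num
    exact_mod_cast this
  have h9 : A ≤ 1 := by nlinarith
  have h10 : -1 ≤ A := by nlinarith
  have h11 : A = -1 ∨ A = 0 ∨ A = 1 := by omega
  rcases h11 with rfl | rfl | rfl <;> norm_num at h8

/-- **Two members on different sides.** -/
theorem anti {σ : K ≃ₐ[ℚ] K} (hσ : Conj σ) {d : ℤ} (hd : Squarefree d) (hd1 : d ≠ 1) {r : K}
    (hr : r ^ 2 = (d : K)) {n : ℕ} (he : Even n) {x y z : K} (hx : x ≠ 0) (hy : y ≠ 0)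
    (h : x ^ n + y ^ n = z ^ n) (hN : |Algebra.norm ℚ x| = |Algebra.norm ℚ z|) : d = -1 ∧ n % 4 = 2 := by
  obtain ⟨η, hη⟩ := anti_of hσ he hx hy h hN
  obtain ⟨k, hk⟩ := he
  refine ⟨eq_neg_one hσ hd hd1 hr (i := η ^ k) (by rw [← hη, ← pow_mul]; congr 1; omega), ?_⟩
  by_contra hcon
  exact no_eighth hσ (θ := η ^ (n / 4)) (by rw [← hη, ← pow_mul]; congr 1; omega)

/-- **Two members on the same side.** -/
theorem same {σ : K ≃ₐ[ℚ] K} (hσ : Conj σ) {d : ℤ} (hd : Squarefree d) (hd1 : d ≠ 1) {r : K}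
    (hr : r ^ 2 = (d : K)) {n : ℕ} (hn : 4 ≤ n) (he : Even n) {x y z : K} (hz : z ≠ 0)
    (h : x ^ n + y ^ n = z ^ n) (hN : |Algebra.norm ℚ x| = |Algebra.norm ℚ y|) :
    d % 8 = 1 ∨ (d % 8 = 7 ∧ n % 4 = 2 ∧ ∀ p : ℕ, p.Prime → p ∣ n → (p % 8 = 3 ∨ p % 8 = 5) →
      ∀ c : ℤ, IsIntegral ℤ ((c : K) * (x / z)) → (p : ℤ) ∣ c) := by
  have h1 := sym_of hσ he hz h hN
  obtain ⟨k, hk⟩ := he
  by_cases h4 : n % 4 = 0
  · left
    refine sym_four hσ hd hd1 hr (U := (x / z) ^ (n / 4)) ?_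
    rw [map_pow, ← pow_mul, ← pow_mul, show n / 4 * 4 = n by omega]
    exact h1
  · have h2 : n % 4 = 2 := by omega
    have key : ∀ p : ℕ, p.Prime → p ≠ 2 → p ∣ n → d % 8 = 1 ∨ (d % 8 = 7 ∧
        ∀ c : ℤ, ¬ (p : ℤ) ∣ c → IsIntegral ℤ ((c : K) * (x / z)) → p % 8 = 1 ∨ p % 8 = 7) := by
      intro p hp hp2 hpn
      obtain ⟨l, hl⟩ := hpn
      have hl2 : l % 2 = 0 := by
        have h3 : (p * l) % 2 = 0 := by omega
        have h5 : p % 2 = 1 := Nat.odd_iff.1 (hp.odd_of_ne_two hp2)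
        rw [Nat.mul_mod, h5] at h3
        omega
      refine sym_prime hσ hd hd1 hr hp hp2 (k := l / 2) ?_
      rw [show 2 * p * (l / 2) = n by
        rw [hl]
        have : l = 2 * (l / 2) := by omega
        conv_rhs => rw [this]
        ring]
      exact h1
    by_cases hd8 : d % 8 = 1
    · exact Or.inl hd8
    · right
      have hq : (n / 2) ≠ 1 := by omega
      obtain ⟨p, hp, hpn⟩ := Nat.exists_prime_and_dvd hq
      have hp2 : p ≠ 2 := by
        rintro rfl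
        omega
      have hpn' : p ∣ n := hpn.trans ⟨2, by omega⟩
      have hd7 : d % 8 = 7 := by
        rcases key p hp hp2 hpn' with h3 | h3
        · exact absurd h3 hd8
        · exact h3.1
      refine ⟨hd7, h2, fun q hq hqn hq8 c hc => ?_⟩
      by_contra hcon
      have hq2 : q ≠ 2 := by
        rintro rfl
        omega
      rcases key q hq hq2 hqn with h3 | h3
      · exact hd8 h3
      · have := h3.2 c hcon hc
        omega

end Pool.Agent.Q252.FS
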